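import Mathlib
import Pool.Graph.R_pool_sql_team_seeded_5cf16337.K3h28.NF.TK

/-!
# Multiplicative cubes in dense sets of integers, with prescribed sets of primes

At every step the two primes are taken from a prescribed set of primes with divergent sum of
reciprocals, which may depend on the previous primes.
-/

set_option autoImplicit false

namespace Pool.Agent.H443.PP

open Finset

/-- the sum of the reciprocals of the elements of `T` diverges -/
def Div (T : Set ℕ) : Prop := ¬ Summable (T.indicator fun p : ℕ => (1 : ℝ) / p)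

theorem Div.mono {T T' : Set ℕ} (h : T ⊆ T') (hT : Div T) : Div T' := by
  intro hs
  apply hT
  refine Summable.of_nonneg_of_le (fun p => ?_) (fun p => ?_) hs
  · exact Set.indicator_nonneg (fun _ _ => by positivity) p
  · by_cases hp : p ∈ T
    · rw [Set.indicator_of_mem hp, Set.indicator_of_mem (h hp)]
    · rw [Set.indicator_of_notMem hp]
      exact Set.indicator_nonneg (fun _ _ => by positivity) p

theorem Div.exists_finset {T : Set ℕ} (hT : Div T) (M : ℝ) (y : ℕ) :
    ∃ P : Finset ℕ, (∀ p ∈ P, p ∈ T ∧ y < p) ∧ M ≤ ∑ p ∈ P, (1 : ℝ) / p := by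
  classical
  set f : ℕ → ℝ := T.indicator fun p : ℕ => (1 : ℝ) / p with hf
  have hf0 : ∀ p, 0 ≤ f p := fun p => Set.indicator_nonneg (fun _ _ => by positivity) p
  have h1 := (not_summable_iff_tendsto_nat_atTop_of_nonneg hf0).1 hT
  obtain ⟨n, hn⟩ := (Filter.tendsto_atTop.1 h1 (M + ∑ p ∈ range (y + 1), f p)).exists
  refine ⟨(range n).filter (fun p => p ∈ T ∧ y < p), fun p hp => (Finset.mem_filter.1 hp).2, ?_⟩
  have h2 : ∑ p ∈ (range n).filter (fun p => p ∈ T ∧ y < p), (1 : ℝ) / p =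
      ∑ p ∈ (range n).filter (fun p => p ∈ T ∧ y < p), f p := by
    refine Finset.sum_congr rfl fun p hp => ?_
    rw [hf, Set.indicator_of_mem (Finset.mem_filter.1 hp).2.1]
  rw [h2]
  have h3 : ∑ p ∈ range n, f p ≤ ∑ p ∈ (range n).filter (fun p => p ∈ T ∧ y < p), f p +
      ∑ p ∈ range (y + 1), f p := by
    rw [← Finset.sum_filter_add_sum_filter_not (range n) (fun p => p ∈ T ∧ y < p) f]
    refine add_le_add le_rfl ?_
    rw [← Finset.sum_filter_add_sum_filter_not
      ((range n).filter (fun p => ¬ (p ∈ T ∧ y < p))) (fun p => p ∈ T) f]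
    have h4 : ∑ p ∈ ((range n).filter (fun p => ¬ (p ∈ T ∧ y < p))).filter (fun p => ¬ p ∈ T), f p = 0 :=
      Finset.sum_eq_zero fun p hp => Set.indicator_of_notMem (Finset.mem_filter.1 hp).2 _
    rw [h4, add_zero]
    refine Finset.sum_le_sum_of_subset_of_nonneg ?_ (fun p _ _ => hf0 p)
    intro p hp
    rw [Finset.mem_filter, Finset.mem_filter] at hp
    rw [Finset.mem_range]
    by_contra h
    exact hp.1.2 ⟨hp.2, by omega⟩
  linarith

/-- the multiples -/
theorem card_mult (x p : ℕ) : ((Ioc 0 x).filter (p ∣ ·)).card = x / p :=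
  Nat.Ioc_filter_dvd_card_eq_div x p

/-- **One step.** -/
theorem one_step (T : Set ℕ) (hTp : ∀ p ∈ T, p.Prime) (hT : Div T) (δ : ℝ) (hδ : 0 < δ) (y : ℕ) :
    ∃ (P : Finset ℕ) (δ' : ℝ) (x₀ : ℕ), 0 < δ' ∧ (∀ p ∈ P, p ∈ T ∧ y < p) ∧
      ∀ x ≥ x₀, ∀ A : Finset ℕ, A ⊆ Ioc 0 x → δ * x ≤ A.card → ∃ p ∈ P, ∃ q ∈ P, p ≠ q ∧
        δ' * x ≤ ((Ioc 0 x).filter (fun a => p * a ∈ A ∧ q * a ∈ A)).card := by
  classical
  obtain ⟨P, hP, hsum⟩ := hT.exists_finset (16 / δ ^ 2) y
  have hpp : ∀ p ∈ P, p.Prime := fun p hp => hTp p (hP p hp).1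
  set μ : ℝ := ∑ p ∈ P, (1 : ℝ) / p with hμ
  have hμ0 : 0 < μ := lt_of_lt_of_le (by positivity) hsum
  have hPne : P.Nonempty := by
    rw [Finset.nonempty_iff_ne_empty]
    intro h
    rw [hμ, h, Finset.sum_empty] at hμ0
    exact lt_irrefl _ hμ0
  have hPc : (0 : ℝ) < P.card := by exact_mod_cast Finset.card_pos.2 hPne
  set η : ℝ := 1 / (3 * μ + 1) with hη
  have hη0 : 0 < η := by positivity
  have hη1 : η ≤ 1 := by
    rw [hη, div_le_one (by positivity)]
    linarith
  have hημ : 3 * η * μ ≤ 1 := by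
    rw [hη]
    rw [show 3 * (1 / (3 * μ + 1)) * μ = (3 * μ) / (3 * μ + 1) by ring]
    rw [div_le_one (by positivity)]
    linarith
  refine ⟨P, μ / (P.card : ℝ) ^ 2, max 1 (P.sup fun p => ⌈(p : ℝ) / η⌉₊), by positivity, hP, ?_⟩
  intro x hx A hA hAc
  have hx1 : 1 ≤ x := (le_max_left _ _).trans hx
  have hxr : (0 : ℝ) < x := by exact_mod_cast hx1
  have hcard : ((Ioc 0 x).card : ℝ) = x := by rw [Nat.card_Ioc, Nat.sub_zero]
  have hxp : ∀ p ∈ P, (p : ℝ) / η ≤ x := by
    intro p hp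
    have h1 : ⌈(p : ℝ) / η⌉₊ ≤ x :=
      (Finset.le_sup (f := fun p : ℕ => ⌈(p : ℝ) / η⌉₊) hp).trans ((le_max_right _ _).trans hx)
    exact (Nat.le_ceil _).trans (by exact_mod_cast h1)
  set D : ℕ → Finset ℕ := fun p => (Ioc 0 x).filter (p ∣ ·) with hD
  set Cc : ℕ → Finset ℕ := fun p => (Ioc 0 x).filter (fun a => p * a ∈ A) with hCc
  obtain ⟨p, hp, q, hq, hpq, h⟩ := Pool.Agent.K3h28.NF.turan (Ioc 0 x) P D Cc
    (fun p => (1 : ℝ) / p) η δ A (by rw [Nat.card_Ioc]; omega)
    (fun p _ => by positivity) hη0.le hη1 hημ hδ (by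
      rw [div_le_iff₀ (by positivity)] at hsum
      linarith) (fun p _ => Finset.filter_subset _ _)
    (fun p hp => by
      rw [hD, hcard]
      simp only
      rw [card_mult]
      have h1 : ((x / p : ℕ) : ℝ) ≤ x / p := Nat.cast_div_le
      refine h1.trans ?_
      rw [div_eq_mul_one_div (x : ℝ) p, mul_comm (x : ℝ)]
      have : (0 : ℝ) ≤ 1 / p := by positivity
      gcongr
      linarith [mul_nonneg hη0.le this])
    (fun p hp => by
      rw [hD, hcard]
      simp only
      rw [card_mult]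
      have hp0 : (0 : ℝ) < p := by exact_mod_cast (hpp p hp).pos
      have h1 : (x : ℝ) / p < (x / p : ℕ) + 1 := by
        rw [div_lt_iff₀ hp0]
        have h5 : x < (x / p + 1) * p := by
          have h6 := Nat.div_add_mod x p
          have h7 := Nat.mod_lt x (hpp p hp).pos
          nlinarith
        exact_mod_cast h5
      have h2 := hxp p hp
      rw [div_le_iff₀ hη0] at h2
      have h3 : 1 ≤ η * (1 / p) * x := by
        rw [show η * (1 / (p : ℝ)) * x = (x * η) / p by ring, le_div_iff₀ hp0]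
        linarith
      have h4 : (1 - η) * (1 / p) * (x : ℝ) = x / p - η * (1 / p) * x := by ring
      rw [h4]
      linarith)
    (fun p hp q hq hpq => by
      have h1 : D p ∩ D q = (Ioc 0 x).filter (p * q ∣ ·) := by
        ext a
        simp only [hD, Finset.mem_inter, Finset.mem_filter]
        constructor
        · rintro ⟨⟨h1, h2⟩, -, h3⟩
          exact ⟨h1, Nat.Coprime.mul_dvd_of_dvd_of_dvd
            ((Nat.coprime_primes (hpp p hp) (hpp q hq)).2 hpq) h2 h3⟩
        · rintro ⟨h1, h2⟩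
          exact ⟨⟨h1, dvd_of_mul_right_dvd h2⟩, h1, dvd_of_mul_left_dvd h2⟩
      rw [h1, card_mult, hcard]
      have h2 : ((x / (p * q) : ℕ) : ℝ) ≤ x / ((p * q : ℕ) : ℝ) := Nat.cast_div_le
      refine h2.trans ?_
      push_cast
      have hp0 : (0 : ℝ) < p := by exact_mod_cast (hpp p hp).pos
      have hq0 : (0 : ℝ) < q := by exact_mod_cast (hpp q hq).pos
      have h3 : (x : ℝ) / (p * q) = 1 * (1 / p * (1 / q)) * x := by field_simp
      rw [h3]
      gcongr
      linarith) hA (by rw [hcard]; exact hAc) (fun p _ => Finset.filter_subset _ _) (fun p hp => by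
      refine Finset.card_bij' (fun a _ => p * a) (fun b _ => b / p) ?_ ?_ ?_ ?_
      · intro a ha
        simp only [hCc, Finset.mem_filter] at ha
        simp only [hD, Finset.mem_inter, Finset.mem_filter]
        exact ⟨ha.2, hA ha.2, dvd_mul_right _ _⟩
      · intro b hb
        simp only [hD, Finset.mem_inter, Finset.mem_filter] at hb
        simp only [hCc, Finset.mem_filter]
        obtain ⟨hbA, hbx, c, hc⟩ := hb
        have hp0 := (hpp p hp).pos
        rw [Finset.mem_Ioc] at hbx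
        rw [hc, Nat.mul_div_cancel_left _ hp0, Finset.mem_Ioc]
        refine ⟨⟨?_, ?_⟩, ?_⟩
        · rcases Nat.eq_zero_or_pos c with h | h
          · rw [h, mul_zero] at hc; omega
          · exact h
        · calc c = 1 * c := (one_mul c).symm
            _ ≤ p * c := Nat.mul_le_mul_right c hp0
            _ = b := hc.symm
            _ ≤ x := hbx.2
        · rw [← hc]; exact hbA
      · intro a ha
        exact Nat.mul_div_cancel_left _ (hpp p hp).pos
      · intro b hb
        simp only [hD, Finset.mem_inter, Finset.mem_filter] at hb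
        exact Nat.mul_div_cancel' hb.2.2)
  refine ⟨p, hp, q, hq, hpq, ?_⟩
  rw [hcard] at h
  refine h.trans ?_
  have h1 : Cc p ∩ Cc q ⊆ (Ioc 0 x).filter (fun a => p * a ∈ A ∧ q * a ∈ A) := by
    intro a ha
    simp only [hCc, Finset.mem_inter, Finset.mem_filter] at ha
    rw [Finset.mem_filter]
    exact ⟨ha.1.1, ha.1.2, ha.2.2⟩
  exact_mod_cast Finset.card_le_card h1

theorem exists_pos_le {α : Type*} (P : Finset α) (f : α → ℝ) (hf : ∀ a ∈ P, 0 < f a) :
    ∃ c : ℝ, 0 < c ∧ ∀ a ∈ P, c ≤ f a := by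
  classical
  induction P using Finset.induction_on with
  | empty => exact ⟨1, one_pos, fun a ha => absurd ha (Finset.notMem_empty a)⟩
  | insert b P hb ih =>
    obtain ⟨c, hc, h⟩ := ih (fun a ha => hf a (Finset.mem_insert_of_mem ha))
    refine ⟨min c (f b), lt_min hc (hf b (Finset.mem_insert_self _ _)), fun a ha => ?_⟩
    rcases Finset.mem_insert.1 ha with h1 | h1
    · rw [h1]; exact min_le_right _ _
    · exact (min_le_left _ _).trans (h a h1)

section

variable {κ V : Type*} [Field κ] [AddCommGroup V] [Module κ V] [FiniteDimensional κ V]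

/-- **A block**: the vectors of the primes `q` span the whole space modulo `U`. -/
theorem block (c : ℕ → V) (hc : ∀ U : Submodule κ V, U ≠ ⊤ → Div {p | p.Prime ∧ c p ∉ U}) (k : ℕ) :
    ∀ (U : Submodule κ V), Module.finrank κ U + k = Module.finrank κ V → ∀ (δ : ℝ), 0 < δ → ∀ y : ℕ,
    ∃ (δ' : ℝ) (Y x₀ : ℕ), 0 < δ' ∧ y ≤ Y ∧ ∀ x ≥ x₀, ∀ A : Finset ℕ, A ⊆ Ioc 0 x → δ * x ≤ A.card →
      ∃ p q : Fin k → ℕ, (∀ i, (p i).Prime ∧ (q i).Prime ∧ y < p i ∧ y < q i ∧ p i ≤ Y ∧ q i ≤ Y) ∧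
        (∀ i j, p i ≠ q j) ∧ Function.Injective q ∧
        U ⊔ Submodule.span κ (Set.range fun i => c (q i)) = ⊤ ∧
        δ' * x ≤ ((Ioc 0 x).filter (fun a => (∏ i, p i) * a ∈ A ∧ (∏ i, q i) * a ∈ A)).card := by
  classical
  induction k with
  | zero =>
    intro U hU δ hδ y
    refine ⟨δ, y, 0, hδ, le_rfl, fun x _ A hA hAc => ⟨Fin.elim0, Fin.elim0, fun i => i.elim0,
      fun i => i.elim0, fun i => i.elim0, ?_, ?_⟩⟩
    · rw [add_zero] at hU
      rw [Submodule.eq_top_of_finrank_eq hU, top_sup_eq]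
    · refine hAc.trans ?_
      have h1 : A ⊆ (Ioc 0 x).filter (fun a => (∏ i : Fin 0, (Fin.elim0 i : ℕ)) * a ∈ A ∧
          (∏ i : Fin 0, (Fin.elim0 i : ℕ)) * a ∈ A) := by
        intro a ha
        rw [Finset.mem_filter]
        simp only [Finset.univ_eq_empty, Finset.prod_empty, one_mul]
        exact ⟨hA ha, ha, ha⟩
      exact_mod_cast Finset.card_le_card h1
  | succ k ih =>
    intro U hU δ hδ y
    have hUt : U ≠ ⊤ := by
      rintro rfl
      rw [finrank_top] at hU
      omega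
    obtain ⟨P, δ₁, x₁, hδ₁, hP, hstep⟩ := one_step {p | p.Prime ∧ c p ∉ U} (fun p hp => hp.1)
      (hc U hUt) δ hδ y
    have hfr : ∀ q ∈ P, Module.finrank κ (U ⊔ Submodule.span κ {c q} : Submodule κ V) + k =
        Module.finrank κ V := by
      intro q hq
      have hq' : c q ∉ U := (hP q hq).1.2
      have h0 : c q ≠ 0 := fun h => hq' (by rw [h]; exact U.zero_mem)
      have h1 := Submodule.finrank_sup_add_finrank_inf_eq U (Submodule.span κ {c q})
      have h2 : U ⊓ Submodule.span κ {c q} = ⊥ := by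
        rw [eq_bot_iff]
        rintro z ⟨hz1, hz2⟩
        obtain ⟨t, rfl⟩ := Submodule.mem_span_singleton.1 hz2
        by_cases ht : t = 0
        · rw [ht, zero_smul]; exact Submodule.zero_mem _
        · exfalso
          apply hq'
          have h3 := U.smul_mem t⁻¹ hz1
          rwa [inv_smul_smul₀ ht] at h3
      rw [h2, finrank_bot, finrank_span_singleton h0] at h1
      omega
    set y' : ℕ := max y (P.sup id) with hy'
    have hih : ∀ q : ℕ, ∃ (δ' : ℝ) (Y x₀ : ℕ), 0 < δ' ∧ (q ∈ P → y' ≤ Y ∧ ∀ x ≥ x₀, ∀ A : Finset ℕ,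
      A ⊆ Ioc 0 x → δ₁ * x ≤ A.card →
      ∃ p q' : Fin k → ℕ, (∀ i, (p i).Prime ∧ (q' i).Prime ∧ y' < p i ∧ y' < q' i ∧ p i ≤ Y ∧ q' i ≤ Y) ∧
        (∀ i j, p i ≠ q' j) ∧ Function.Injective q' ∧
        (U ⊔ Submodule.span κ {c q}) ⊔ Submodule.span κ (Set.range fun i => c (q' i)) = ⊤ ∧
        δ' * x ≤ ((Ioc 0 x).filter (fun a => (∏ i, p i) * a ∈ A ∧ (∏ i, q' i) * a ∈ A)).card) := by
      intro q
      by_cases hq : q ∈ P
      · obtain ⟨δ', Y, x₀, h1, h2, h3⟩ := ih _ (hfr q hq) δ₁ hδ₁ y'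
        exact ⟨δ', Y, x₀, h1, fun _ => ⟨h2, h3⟩⟩
      · exact ⟨1, 0, 0, one_pos, fun h => absurd h hq⟩
    choose δq Yq xq hδq hq3 using hih
    obtain ⟨δ', hδ', hδ'le⟩ := exists_pos_le P δq (fun q _ => hδq q)
    refine ⟨δ', max y' (P.sup Yq), max x₁ (P.sup xq), hδ', (le_max_left _ _).trans (le_max_left _ _), ?_⟩
    intro x hx A hA hAc
    obtain ⟨p₀, hp₀, q₀, hq₀, hpq₀, hcard⟩ := hstep x ((le_max_left _ _).trans hx) A hA hAc
    obtain ⟨p, q, h1, h2, h3, h4, h5⟩ := (hq3 q₀ hq₀).2 x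
      ((Finset.le_sup hq₀).trans ((le_max_right _ _).trans hx)) _ (Finset.filter_subset _ _) hcard
    have hsup : ∀ u ∈ P, u ≤ y' := fun u hu =>
      (Finset.le_sup (f := id) hu).trans (le_max_right _ _)
    have hyy' : y ≤ y' := le_max_left _ _
    refine ⟨Fin.cons p₀ p, Fin.cons q₀ q, ?_, ?_, ?_, ?_, ?_⟩
    · intro i
      refine Fin.cases ?_ (fun i => ?_) i
      · simp only [Fin.cons_zero]
        exact ⟨(hP p₀ hp₀).1.1, (hP q₀ hq₀).1.1, (hP p₀ hp₀).2, (hP q₀ hq₀).2,
          (hsup p₀ hp₀).trans (le_max_left _ _), (hsup q₀ hq₀).trans (le_max_left _ _)⟩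
      · simp only [Fin.cons_succ]
        obtain ⟨g1, g2, g3, g4, g5, g6⟩ := h1 i
        exact ⟨g1, g2, lt_of_le_of_lt hyy' g3, lt_of_le_of_lt hyy' g4,
          g5.trans ((Finset.le_sup hq₀).trans (le_max_right _ _)),
          g6.trans ((Finset.le_sup hq₀).trans (le_max_right _ _))⟩
    · intro i j
      refine Fin.cases ?_ (fun i => ?_) i
      · refine Fin.cases ?_ (fun j => ?_) j
        · simpa using hpq₀
        · simp only [Fin.cons_zero, Fin.cons_succ]
          exact (lt_of_le_of_lt (hsup p₀ hp₀) (h1 j).2.2.2.1).ne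
      · refine Fin.cases ?_ (fun j => ?_) j
        · simp only [Fin.cons_zero, Fin.cons_succ]
          exact (lt_of_le_of_lt (hsup q₀ hq₀) (h1 i).2.2.1).ne'
        · simp only [Fin.cons_succ]
          exact h2 i j
    · rw [Fin.cons_injective_iff]
      refine ⟨?_, h3⟩
      rintro ⟨i, hi⟩
      exact (lt_of_le_of_lt (hsup q₀ hq₀) (h1 i).2.2.2.1).ne' hi
    · rw [eq_top_iff, ← h4, sup_assoc]
      apply sup_le_sup_left
      refine sup_le ?_ ?_
      · rw [Submodule.span_le, Set.singleton_subset_iff]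
        exact Submodule.subset_span ⟨0, by simp⟩
      · rw [Submodule.span_le]
        rintro _ ⟨i, rfl⟩
        exact Submodule.subset_span ⟨i.succ, by simp⟩
    · have h6 : δ' * x ≤ δq q₀ * x :=
        mul_le_mul_of_nonneg_right (hδ'le q₀ hq₀) (Nat.cast_nonneg x)
      refine h6.trans (h5.trans ?_)
      have h7 : (Ioc 0 x).filter (fun a => (∏ i, p i) * a ∈ (Ioc 0 x).filter
          (fun a => p₀ * a ∈ A ∧ q₀ * a ∈ A) ∧ (∏ i, q i) * a ∈ (Ioc 0 x).filter
          (fun a => p₀ * a ∈ A ∧ q₀ * a ∈ A)) ⊆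
          (Ioc 0 x).filter (fun a => (∏ i, (Fin.cons p₀ p : Fin (k + 1) → ℕ) i) * a ∈ A ∧
            (∏ i, (Fin.cons q₀ q : Fin (k + 1) → ℕ) i) * a ∈ A) := by
        intro a ha
        simp only [Finset.mem_filter] at ha ⊢
        refine ⟨ha.1, ?_, ?_⟩
        · rw [Fin.prod_univ_succ]
          simp only [Fin.cons_zero, Fin.cons_succ]
          rw [mul_assoc]
          exact ha.2.1.2.1
        · rw [Fin.prod_univ_succ]
          simp only [Fin.cons_zero, Fin.cons_succ]
          rw [mul_assoc]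
          exact ha.2.2.2.2
      exact_mod_cast Finset.card_le_card h7

/-- **Cubes of blocks.** -/
theorem cube (c : ℕ → V) (hc : ∀ U : Submodule κ V, U ≠ ⊤ → Div {p | p.Prime ∧ c p ∉ U})
    (m : ℕ) (hm : Module.finrank κ V = m) (r : ℕ) :
    ∀ (δ : ℝ), 0 < δ → ∀ y : ℕ, ∃ x₀ : ℕ, ∀ x ≥ x₀, ∀ A : Finset ℕ, A ⊆ Ioc 0 x → δ * x ≤ A.card →
      ∃ (a : ℕ) (p q : Fin r × Fin m → ℕ), 0 < a ∧ (∀ z, (p z).Prime ∧ (q z).Prime ∧ y < p z ∧ y < q z) ∧
        (∀ z z', p z ≠ q z') ∧ Function.Injective q ∧ (∀ z z', p z = p z' → z.1 = z'.1) ∧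
        (∀ b, Submodule.span κ (Set.range fun i => c (q (b, i))) = ⊤) ∧
        ∀ S : Finset (Fin r), a * ∏ b, (if b ∈ S then ∏ i, q (b, i) else ∏ i, p (b, i)) ∈ A := by
  classical
  induction r with
  | zero =>
    intro δ hδ y
    refine ⟨1, fun x hx A hA hAc => ?_⟩
    have hxr : (0 : ℝ) < x := by exact_mod_cast hx
    have h1 : (0 : ℝ) < A.card := lt_of_lt_of_le (by positivity) hAc
    obtain ⟨a, ha⟩ := Finset.card_pos.1 (by exact_mod_cast h1 : 0 < A.card)
    refine ⟨a, fun z => z.1.elim0, fun z => z.1.elim0, (Finset.mem_Ioc.1 (hA ha)).1,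
      fun z => z.1.elim0, fun z => z.1.elim0, fun z => z.1.elim0, fun z => z.1.elim0,
      fun b => b.elim0, fun S => ?_⟩
    simpa using ha
  | succ r ih =>
    intro δ hδ y
    obtain ⟨δ', Y, x₁, hδ', hyY, hblock⟩ := block c hc m ⊥ (by rw [finrank_bot, zero_add, hm]) δ hδ y
    obtain ⟨x₂, hx₂⟩ := ih δ' hδ' Y
    refine ⟨max x₁ x₂, fun x hx A hA hAc => ?_⟩
    obtain ⟨p₀, q₀, g1, g2, g3, g4, hcard⟩ := hblock x ((le_max_left _ _).trans hx) A hA hAc
    obtain ⟨a, p, q, ha, h1, h2, h3, h3', h4, h5⟩ := hx₂ x ((le_max_right _ _).trans hx) _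
      (Finset.filter_subset _ _) hcard
    refine ⟨a, fun z => (Fin.cons (fun i => p₀ i) (fun b i => p (b, i)) :
        Fin (r + 1) → Fin m → ℕ) z.1 z.2, fun z => (Fin.cons (fun i => q₀ i) (fun b i => q (b, i)) :
        Fin (r + 1) → Fin m → ℕ) z.1 z.2, ha, ?_, ?_, ?_, ?_, ?_, ?_⟩
    · rintro ⟨b, i⟩
      refine Fin.cases ?_ (fun b => ?_) b
      · simp only [Fin.cons_zero]
        exact ⟨(g1 i).1, (g1 i).2.1, (g1 i).2.2.1, (g1 i).2.2.2.1⟩
      · simp only [Fin.cons_succ]
        obtain ⟨k1, k2, k3, k4⟩ := h1 (b, i)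
        exact ⟨k1, k2, lt_of_le_of_lt hyY k3, lt_of_le_of_lt hyY k4⟩
    · rintro ⟨b, i⟩ ⟨b', i'⟩
      refine Fin.cases ?_ (fun b => ?_) b
      · refine Fin.cases ?_ (fun b' => ?_) b'
        · simp only [Fin.cons_zero]
          exact g2 i i'
        · simp only [Fin.cons_zero, Fin.cons_succ]
          exact (lt_of_le_of_lt (g1 i).2.2.2.2.1 (h1 (b', i')).2.2.2).ne
      · refine Fin.cases ?_ (fun b' => ?_) b'
        · simp only [Fin.cons_zero, Fin.cons_succ]
          exact (lt_of_le_of_lt (g1 i').2.2.2.2.2 (h1 (b, i)).2.2.1).ne'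
        · simp only [Fin.cons_succ]
          exact h2 _ _
    · rintro ⟨b, i⟩ ⟨b', i'⟩
      refine Fin.cases ?_ (fun b => ?_) b
      · refine Fin.cases ?_ (fun b' => ?_) b'
        · simp only [Fin.cons_zero]
          intro h
          rw [g3 h]
        · simp only [Fin.cons_zero, Fin.cons_succ]
          intro h
          exact absurd h (lt_of_le_of_lt (g1 i).2.2.2.2.2 (h1 (b', i')).2.2.2).ne
      · refine Fin.cases ?_ (fun b' => ?_) b'
        · simp only [Fin.cons_zero, Fin.cons_succ]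
          intro h
          exact absurd h (lt_of_le_of_lt (g1 i').2.2.2.2.2 (h1 (b, i)).2.2.2).ne'
        · simp only [Fin.cons_succ]
          intro h
          have h6 := h3 h
          simp only [Prod.mk.injEq] at h6
          rw [h6.1, h6.2]
    · rintro ⟨b, i⟩ ⟨b', i'⟩
      refine Fin.cases ?_ (fun b => ?_) b
      · refine Fin.cases ?_ (fun b' => ?_) b'
        · intro _; rfl
        · simp only [Fin.cons_zero, Fin.cons_succ]
          intro h
          exact absurd h (lt_of_le_of_lt (g1 i).2.2.2.2.1 (h1 (b', i')).2.2.1).ne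
      · refine Fin.cases ?_ (fun b' => ?_) b'
        · simp only [Fin.cons_zero, Fin.cons_succ]
          intro h
          exact absurd h (lt_of_le_of_lt (g1 i').2.2.2.2.1 (h1 (b, i)).2.2.1).ne'
        · simp only [Fin.cons_succ]
          intro h
          have h6 : b = b' := h3' (b, i) (b', i') h
          rw [h6]
    · intro b
      refine Fin.cases ?_ (fun b => ?_) b
      · simp only [Fin.cons_zero]
        rw [bot_sup_eq] at g4
        exact g4
      · simp only [Fin.cons_succ]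
        exact h4 b
    · intro S
      have h6 := h5 (univ.filter (fun b : Fin r => b.succ ∈ S))
      rw [Finset.mem_filter] at h6
      have h8 : ∏ b : Fin (r + 1), (if b ∈ S then ∏ i, (Fin.cons (fun i => q₀ i) (fun b i => q (b, i)) :
        Fin (r + 1) → Fin m → ℕ) b i else ∏ i, (Fin.cons (fun i => p₀ i) (fun b i => p (b, i)) :
        Fin (r + 1) → Fin m → ℕ) b i) =
          (if (0 : Fin (r + 1)) ∈ S then ∏ i, q₀ i else ∏ i, p₀ i) *
          ∏ b : Fin r, (if b ∈ univ.filter (fun b : Fin r => b.succ ∈ S) then ∏ i, q (b, i)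
            else ∏ i, p (b, i)) := by
        rw [Fin.prod_univ_succ]
        simp only [Fin.cons_zero, Fin.cons_succ, Finset.mem_filter, Finset.mem_univ, true_and]
      show a * ∏ b : Fin (r + 1), (if b ∈ S then ∏ i, (Fin.cons (fun i => q₀ i) (fun b i => q (b, i)) :
        Fin (r + 1) → Fin m → ℕ) b i else ∏ i, (Fin.cons (fun i => p₀ i) (fun b i => p (b, i)) :
        Fin (r + 1) → Fin m → ℕ) b i) ∈ A
      rw [h8]
      by_cases h0 : (0 : Fin (r + 1)) ∈ S
      · rw [if_pos h0]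
        have h9 := h6.2.2
        rw [show (∏ i, q₀ i) * (a * ∏ b : Fin r, (if b ∈ univ.filter (fun b : Fin r => b.succ ∈ S)
          then ∏ i, q (b, i) else ∏ i, p (b, i))) = a * ((∏ i, q₀ i) * ∏ b : Fin r,
          (if b ∈ univ.filter (fun b : Fin r => b.succ ∈ S)
          then ∏ i, q (b, i) else ∏ i, p (b, i))) by ring] at h9
        exact h9
      · rw [if_neg h0]
        have h9 := h6.2.1
        rw [show (∏ i, p₀ i) * (a * ∏ b : Fin r, (if b ∈ univ.filter (fun b : Fin r => b.succ ∈ S)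
          then ∏ i, q (b, i) else ∏ i, p (b, i))) = a * ((∏ i, p₀ i) * ∏ b : Fin r,
          (if b ∈ univ.filter (fun b : Fin r => b.succ ∈ S)
          then ∏ i, q (b, i) else ∏ i, p (b, i))) by ring] at h9
        exact h9

end

end Pool.Agent.H443.PP
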