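import Mathlib
import Pool.Agent.H443.PP.Cube

/-!
# Integers without prime factors in a thin set
-/

set_option autoImplicit false

namespace Pool.Agent.H443.PP

open Finset

theorem tail_small (f : ℕ → ℝ) (hs : Summable f) (ε : ℝ) (hε : 0 < ε) :
    ∃ Y : ℕ, ∀ t : Finset ℕ, (∀ p ∈ t, Y ≤ p) → ∑ p ∈ t, f p < ε := by
  obtain ⟨s, h⟩ := summable_iff_vanishing_norm.1 hs ε hε
  refine ⟨s.sup id + 1, fun t ht => ?_⟩
  have h1 := h t (by
    rw [Finset.disjoint_left]
    intro p hp hps
    have h2 := ht p hp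
    have h3 : p ≤ s.sup id := Finset.le_sup (f := id) hps
    omega)
  exact lt_of_le_of_lt (le_abs_self _) h1

theorem card_class (M p T : ℕ) (_hp : 0 < p) (hc : Nat.Coprime p M) :
    ((range T).filter (fun t => p ∣ 1 + M * t)).card ≤ T / p + 1 := by
  rw [← Finset.card_range (T / p + 1)]
  apply Finset.card_le_card_of_injOn (fun t => t / p)
  · intro t ht
    have ht' := Finset.mem_filter.1 (Finset.mem_coe.1 ht)
    rw [Finset.mem_range] at ht'
    rw [Finset.mem_coe, Finset.mem_range]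
    have := Nat.div_le_div_right (c := p) ht'.1.le
    show t / p < T / p + 1
    omega
  · intro t ht t' ht' h
    have h1 := (Finset.mem_filter.1 (Finset.mem_coe.1 ht)).2
    have h2 := (Finset.mem_filter.1 (Finset.mem_coe.1 ht')).2
    have h3 : t / p = t' / p := h
    have h4 : (1 + M * t) ≡ (1 + M * t') [MOD p] :=
      ((Nat.modEq_zero_iff_dvd).2 h1).trans ((Nat.modEq_zero_iff_dvd).2 h2).symm
    have h5 : M * t ≡ M * t' [MOD p] := Nat.ModEq.add_left_cancel' 1 h4
    have h6 : t ≡ t' [MOD p] := Nat.ModEq.cancel_left_of_coprime hc h5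
    have h7 : t % p = t' % p := h6
    rw [← Nat.div_add_mod t p, ← Nat.div_add_mod t' p, h3, h7]

open Classical in
/-- **A positive proportion of the integers has no prime factor in a thin set.** -/
theorem sieve (E : Set ℕ) (hE : ∀ p ∈ E, p.Prime)
    (hs : Summable (E.indicator fun p : ℕ => (1 : ℝ) / p)) :
    ∃ (δ : ℝ) (x₀ : ℕ), 0 < δ ∧ ∀ x ≥ x₀,
      δ * x ≤ ((Ioc 0 x).filter (fun n => ∀ p ∈ E, ¬ p ∣ n)).card := by
  classical
  obtain ⟨Y₁, hY₁⟩ := tail_small _ hs (1 / 4) (by norm_num)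
  set M : ℕ := (Y₁).factorial with hM
  have hM0 : 0 < M := Nat.factorial_pos _
  have hMr : (0 : ℝ) < M := by exact_mod_cast hM0
  obtain ⟨Y₂, hY₂⟩ := tail_small _ hs (1 / (8 * M)) (by positivity)
  refine ⟨1 / (2 * M), 8 * M * (1 + Y₂), by positivity, fun x hx => ?_⟩
  set T : ℕ := x / M with hT
  have hTM : M * T ≤ x := Nat.mul_div_le x M
  have hTl : (x : ℝ) / M - 1 ≤ T := by
    have h1 : x < (T + 1) * M := by
      have h6 := Nat.div_add_mod x M
      have h7 := Nat.mod_lt x hM0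
      rw [← hT] at h6
      nlinarith
    have h2 : (x : ℝ) < (T + 1) * M := by exact_mod_cast h1
    rw [← div_lt_iff₀ hMr] at h2
    linarith
  have hTu : (T : ℝ) ≤ x / M := by
    rw [le_div_iff₀ hMr]
    have : ((M * T : ℕ) : ℝ) ≤ x := by exact_mod_cast hTM
    push_cast at this
    linarith
  set Ex : Finset ℕ := (Ioc 0 x).filter (fun p => p ∈ E ∧ Y₁ < p) with hEx
  set G : Finset ℕ := (range T).filter (fun t => ∀ p ∈ E, ¬ p ∣ 1 + M * t) with hG
  -- the good set
  have h1 : G.card ≤ ((Ioc 0 x).filter (fun n => ∀ p ∈ E, ¬ p ∣ n)).card := by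
    apply Finset.card_le_card_of_injOn (fun t => 1 + M * t)
    · intro t ht
      have ht' := Finset.mem_filter.1 (Finset.mem_coe.1 ht)
      rw [Finset.mem_range] at ht'
      rw [Finset.mem_coe, Finset.mem_filter, Finset.mem_Ioc]
      refine ⟨⟨Nat.lt_of_lt_of_le Nat.one_pos (Nat.le_add_right 1 _), ?_⟩, ht'.2⟩
      have h2 : M * (t + 1) ≤ M * T := Nat.mul_le_mul_left M ht'.1
      have h3 : M * (t + 1) = M * t + M := by ring
      show 1 + M * t ≤ x
      linarith
    · intro t _ t' _ h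
      have h' : 1 + M * t = 1 + M * t' := h
      exact Nat.eq_of_mul_eq_mul_left hM0 (by linarith)
  have h2 : (range T).card ≤ G.card + ∑ p ∈ Ex, (T / p + 1) := by
    have h3 : range T ⊆ G ∪ Ex.biUnion (fun p => (range T).filter (fun t => p ∣ 1 + M * t)) := by
      intro t ht
      by_cases h : ∀ p ∈ E, ¬ p ∣ 1 + M * t
      · exact Finset.mem_union_left _ (Finset.mem_filter.2 ⟨ht, h⟩)
      · push Not at h
        obtain ⟨p, hpE, hpd⟩ := h
        refine Finset.mem_union_right _ (Finset.mem_biUnion.2 ⟨p, ?_, Finset.mem_filter.2 ⟨ht, hpd⟩⟩)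
        rw [hEx, Finset.mem_filter, Finset.mem_Ioc]
        refine ⟨⟨(hE p hpE).pos, ?_⟩, hpE, ?_⟩
        · refine (Nat.le_of_dvd (by omega) hpd).trans ?_
          rw [Finset.mem_range] at ht
          have h2 : M * (t + 1) ≤ M * T := Nat.mul_le_mul_left M ht
          have h3 : M * (t + 1) = M * t + M := by ring
          linarith
        · by_contra hle
          push Not at hle
          have h4 : p ∣ M := Nat.dvd_factorial (hE p hpE).pos hle
          have h5 : p ∣ 1 := (Nat.dvd_add_left (dvd_mul_of_dvd_left h4 t)).1 hpd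
          exact (hE p hpE).one_lt.ne' (Nat.dvd_one.1 h5)
    refine (Finset.card_le_card h3).trans ((Finset.card_union_le _ _).trans ?_)
    refine Nat.add_le_add_left (Finset.card_biUnion_le.trans ?_) _
    refine Finset.sum_le_sum fun p hp => ?_
    rw [hEx, Finset.mem_filter] at hp
    have hpp := hE p hp.2.1
    refine card_class M p T hpp.pos ?_
    rw [hpp.coprime_iff_not_dvd]
    intro hd
    have := (hpp.dvd_factorial).1 hd
    omega
  -- the sums
  have h3 : ∑ p ∈ Ex, (1 : ℝ) / p ≤ 1 / 4 := by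
    have h4 := hY₁ Ex (fun p hp => by
      rw [hEx, Finset.mem_filter] at hp
      exact hp.2.2.le)
    refine le_trans (le_of_eq ?_) h4.le
    refine Finset.sum_congr rfl fun p hp => ?_
    rw [hEx, Finset.mem_filter] at hp
    rw [Set.indicator_of_mem hp.2.1]
  have h4 : (Ex.card : ℝ) ≤ Y₂ + x * (1 / (8 * M)) := by
    have h5 : Ex ⊆ range Y₂ ∪ Ex.filter (fun p => Y₂ ≤ p) := by
      intro p hp
      by_cases h : Y₂ ≤ p
      · exact Finset.mem_union_right _ (Finset.mem_filter.2 ⟨hp, h⟩)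
      · exact Finset.mem_union_left _ (Finset.mem_range.2 (by omega))
    have h6 : ((Ex.filter (fun p => Y₂ ≤ p)).card : ℝ) ≤ x * (1 / (8 * M)) := by
      have h7 := hY₂ (Ex.filter (fun p => Y₂ ≤ p)) (fun p hp => (Finset.mem_filter.1 hp).2)
      have h8 : ((Ex.filter (fun p => Y₂ ≤ p)).card : ℝ) ≤
          x * ∑ p ∈ Ex.filter (fun p => Y₂ ≤ p), E.indicator (fun p : ℕ => (1 : ℝ) / p) p := by
        rw [Finset.card_eq_sum_ones, Nat.cast_sum, Finset.mul_sum]
        refine Finset.sum_le_sum fun p hp => ?_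
        have hp' := (Finset.mem_filter.1 hp).1
        rw [hEx, Finset.mem_filter, Finset.mem_Ioc] at hp'
        rw [Set.indicator_of_mem hp'.2.1, Nat.cast_one, mul_one_div,
          le_div_iff₀ (by exact_mod_cast hp'.1.1)]
        rw [one_mul]
        exact_mod_cast hp'.1.2
      refine h8.trans ?_
      exact mul_le_mul_of_nonneg_left h7.le (Nat.cast_nonneg x)
    have h9 : Ex.card ≤ Y₂ + (Ex.filter (fun p => Y₂ ≤ p)).card := by
      refine (Finset.card_le_card h5).trans ((Finset.card_union_le _ _).trans ?_)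
      rw [Finset.card_range]
    have h10 : (Ex.card : ℝ) ≤ Y₂ + (Ex.filter (fun p => Y₂ ≤ p)).card := by exact_mod_cast h9
    linarith
  have h5 : (T : ℝ) ≤ G.card + (T * (1 / 4) + (Y₂ + x * (1 / (8 * M)))) := by
    rw [Finset.card_range] at h2
    have h6 : (T : ℝ) ≤ G.card + ∑ p ∈ Ex, (((T / p : ℕ) : ℝ) + 1) := by exact_mod_cast h2
    refine h6.trans (add_le_add le_rfl ?_)
    rw [Finset.sum_add_distrib, Finset.sum_const, nsmul_eq_mul, mul_one]
    refine add_le_add ?_ h4
    calc ∑ p ∈ Ex, ((T / p : ℕ) : ℝ) ≤ ∑ p ∈ Ex, (T : ℝ) * (1 / p) :=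
          Finset.sum_le_sum fun p _ => by
            rw [mul_one_div]
            exact Nat.cast_div_le
      _ = T * ∑ p ∈ Ex, (1 : ℝ) / p := by rw [Finset.mul_sum]
      _ ≤ T * (1 / 4) := mul_le_mul_of_nonneg_left h3 (Nat.cast_nonneg T)
  have h6 : (8 * M * (1 + Y₂) : ℝ) ≤ x := by exact_mod_cast hx
  have h7 : (1 + Y₂ : ℝ) ≤ x / M * (1 / 8) := by
    rw [div_mul_eq_mul_div, le_div_iff₀ hMr]
    linarith
  have h8 : (x : ℝ) * (1 / (8 * M)) = x / M * (1 / 8) := by field_simp
  have h9 : 1 / (2 * (M : ℝ)) * x = x / M * (1 / 2) := by field_simp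
  rw [h8] at h5
  have h10 : ((G.card : ℕ) : ℝ) ≤ ((Ioc 0 x).filter (fun n => ∀ p ∈ E, ¬ p ∣ n)).card := by
    exact_mod_cast h1
  rw [h9]
  refine le_trans ?_ h10
  linarith

end Pool.Agent.H443.PP
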