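import Mathlib
import Pool.Agent.H443.PP.Cube
import Pool.Agent.H443.VF.Sys
import Pool.Agent.H443.NF.Tup

/-!
# Sums of logarithms of the prime factors with algebraic coefficients
-/

set_option autoImplicit false

namespace Pool.Agent.H443.PP

open Finset
open Pool.Agent.H443.VF
open Pool.Agent.H297R2 (Ex)

section

variable {m : ℕ} {F C : Type} [Field F] [Field C] [CharZero C]

/-- the sum of the logarithms of the prime factors of `n`, with coefficients -/
noncomputable def Lc (lg : C → C) (φ : F →+* algebraicClosure ℚ C) (c : ℕ → Fin m → F) (n : ℕ)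
    (i : Fin m) : C :=
  n.factorization.sum fun p k => ((k : C) * (φ (c p i) : C)) * lg p

theorem Lc_mul (lg : C → C) (φ : F →+* algebraicClosure ℚ C) (c : ℕ → Fin m → F) {a b : ℕ}
    (ha : a ≠ 0) (hb : b ≠ 0) (i : Fin m) :
    Lc lg φ c (a * b) i = Lc lg φ c a i + Lc lg φ c b i := by
  unfold Lc
  rw [Nat.factorization_mul ha hb, Finsupp.sum_add_index']
  · intro p; simp
  · intro p k l
    push_cast
    ring

theorem Lc_one (lg : C → C) (φ : F →+* algebraicClosure ℚ C) (c : ℕ → Fin m → F) (i : Fin m) :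
    Lc lg φ c 1 i = 0 := by
  unfold Lc
  simp

theorem Lc_prime (lg : C → C) (φ : F →+* algebraicClosure ℚ C) (c : ℕ → Fin m → F) {p : ℕ}
    (hp : p.Prime) (i : Fin m) : Lc lg φ c p i = (φ (c p i) : C) * lg p := by
  unfold Lc
  rw [hp.factorization, Finsupp.sum_single_index]
  · simp
  · simp

theorem Lc_prod (lg : C → C) (φ : F →+* algebraicClosure ℚ C) (c : ℕ → Fin m → F) {ι : Type}
    (s : Finset ι) (f : ι → ℕ) (hf : ∀ j ∈ s, f j ≠ 0) (i : Fin m) :
    Lc lg φ c (∏ j ∈ s, f j) i = ∑ j ∈ s, Lc lg φ c (f j) i := by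
  classical
  induction s using Finset.induction_on with
  | empty => simp [Lc_one]
  | insert a s ha ih =>
    rw [Finset.prod_insert ha, Finset.sum_insert ha, Lc_mul _ _ _ (hf a (Finset.mem_insert_self _ _))
      (Finset.prod_ne_zero_iff.2 fun j hj => hf j (Finset.mem_insert_of_mem hj)),
      ih fun j hj => hf j (Finset.mem_insert_of_mem hj)]

theorem lg_one (𝓢 : LogSys C) : 𝓢.lg 1 = 0 := by
  have h := 𝓢.scale 1 1 one_ne_zero one_ne_zero
  rw [Nat.cast_one, one_mul] at h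
  have h2 : 𝓢.lg 1 + 𝓢.lg 1 = 𝓢.lg 1 + 0 := by rw [← h, add_zero]
  exact add_left_cancel h2

theorem mult_indep_primes (S : Finset ℕ) (hS : ∀ l ∈ S, l.Prime) (q : ℕ)
    (hq : ∀ l ∈ S, Nat.Coprime l q) (g : S → ℤ) (e : ℤ)
    (h : ∏ l : S, (((l : ℕ) : C)) ^ (g l) = (q : C) ^ e) : g = 0 := by
  classical
  have h0 : ((∏ l : S, (((l : ℕ) : ℚ)) ^ (g l) : ℚ) : C) = ((q : ℚ) ^ e : ℚ) := by
    push_cast
    exact h
  have h1 : ∏ l : S, (((l : ℕ) : ℚ)) ^ (g l) = (q : ℚ) ^ e := Rat.cast_injective h0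
  funext l₀
  have hl₀ : Fact (l₀ : ℕ).Prime := ⟨hS l₀ l₀.2⟩
  have h2 := congrArg (padicValRat (l₀ : ℕ)) h1
  have hne : ∀ l : S, ((l : ℕ) : ℚ) ≠ 0 := fun l => by exact_mod_cast (hS l l.2).ne_zero
  have hpr : ∀ s : Finset S, padicValRat (l₀ : ℕ) (∏ l ∈ s, (((l : ℕ) : ℚ)) ^ (g l)) =
      ∑ l ∈ s, g l * padicValRat (l₀ : ℕ) ((l : ℕ) : ℚ) := by
    intro s
    induction s using Finset.induction_on with
    | empty => simp
    | insert a s ha ih =>
      rw [Finset.prod_insert ha, Finset.sum_insert ha, padicValRat.mul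
        (zpow_ne_zero _ (hne a)) (Finset.prod_ne_zero_iff.2 fun j _ => zpow_ne_zero _ (hne j)), ih,
        padicValRat.zpow]
  rw [hpr, Finset.sum_eq_single l₀] at h2
  · rw [padicValRat.self hl₀.out.one_lt, mul_one, padicValRat.zpow] at h2
    have h3 : padicValRat (l₀ : ℕ) ((q : ℕ) : ℚ) = 0 := by
      rw [padicValRat.of_nat, Nat.cast_eq_zero]
      apply padicValNat.eq_zero_of_not_dvd
      exact (Nat.Prime.coprime_iff_not_dvd hl₀.out).1 (hq l₀ l₀.2)
    rw [h3, mul_zero] at h2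
    rw [h2, Pi.zero_apply]
  · intro l _ hl
    rw [padicValRat.of_nat, padicValNat.eq_zero_of_not_dvd, Nat.cast_zero, mul_zero]
    intro hdvd
    apply hl
    exact (Subtype.ext ((Nat.prime_dvd_prime_iff_eq hl₀.out (hS l l.2)).1 hdvd)).symm
  · intro h; exact absurd (Finset.mem_univ _) h

theorem log_indep (𝓢 : LogSys C) (S : Finset ℕ) (hS : ∀ l ∈ S, l.Prime)
    (hq : ∀ l ∈ S, l ≠ 𝓢.q) :
    LinearIndependent (algebraicClosure ℚ C) (fun l : S => 𝓢.lg ((l : ℕ) : C)) := by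
  classical
  have h := 𝓢.indep S (fun l => ((l : ℕ) : C)) (fun _ => 1)
    (fun l => ⟨by exact_mod_cast (hS l l.2).ne_zero, isAlgebraic_natCast _⟩)
    (fun _ => ⟨one_ne_zero, isAlgebraic_one⟩) (fun g e hg => by
      refine mult_indep_primes (C := C) S hS 𝓢.q (fun l hl => 𝓢.qp l (hS l hl) (hq l hl)) g e ?_
      simpa using hg)
  simpa [lg_one 𝓢] using h

/-- the directions are independent -/
theorem indep_w (𝓢 : LogSys C) (φ : F →+* algebraicClosure ℚ C) (c : ℕ → Fin m → F) {B : Type}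
    [Fintype B] (p q : B × Fin m → ℕ) (hp : ∀ z, (p z).Prime ∧ (q z).Prime)
    (hq : ∀ z, p z ≠ 𝓢.q ∧ q z ≠ 𝓢.q)
    (hpq : ∀ z z', p z ≠ q z') (hinj : Function.Injective q)
    (hspan : ∀ b, Submodule.span F (Set.range fun i => c (q (b, i))) = ⊤) :
    LinearIndependent (algebraicClosure ℚ C) (fun z : B × Fin m =>
      ∑ j, (Lc 𝓢.lg φ c (q (z.1, j)) z.2 - Lc 𝓢.lg φ c (p (z.1, j)) z.2)) := by
  classical
  rw [Fintype.linearIndependent_iff]
  intro g hg
  set S : Finset ℕ := univ.image q ∪ univ.image p with hS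
  have hSq : ∀ z, q z ∈ S := fun z => Finset.mem_union_left _ (Finset.mem_image_of_mem _ (mem_univ z))
  have hSp : ∀ z, p z ∈ S := fun z => Finset.mem_union_right _ (Finset.mem_image_of_mem _ (mem_univ z))
  have hS' : ∀ l ∈ S, l.Prime ∧ l ≠ 𝓢.q := by
    intro l hl
    rcases Finset.mem_union.1 hl with h | h
    · obtain ⟨z, -, rfl⟩ := Finset.mem_image.1 h
      exact ⟨(hp z).2, (hq z).2⟩
    · obtain ⟨z, -, rfl⟩ := Finset.mem_image.1 h
      exact ⟨(hp z).1, (hq z).1⟩
  have hli := log_indep 𝓢 S (fun l hl => (hS' l hl).1) (fun l hl => (hS' l hl).2)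
  rw [Fintype.linearIndependent_iff] at hli
  -- the coefficients
  set u : B × Fin m → algebraicClosure ℚ C := fun z => ∑ i, g (z.1, i) * φ (c (q z) i) with hu
  set v : B × Fin m → algebraicClosure ℚ C := fun z => ∑ i, g (z.1, i) * φ (c (p z) i) with hv
  set G : S → algebraicClosure ℚ C := fun l => ∑ z, ((if q z = l then u z else 0) -
    (if p z = l then v z else 0)) with hG
  have h1 : ∑ l : S, G l • 𝓢.lg ((l : ℕ) : C) = 0 := by
    have h2 : ∑ l : S, G l • 𝓢.lg ((l : ℕ) : C) = ∑ z, (u z • 𝓢.lg ((q z : ℕ) : C) -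
        v z • 𝓢.lg ((p z : ℕ) : C)) := by
      simp only [hG, Finset.sum_smul, sub_smul]
      rw [Finset.sum_comm]
      refine Finset.sum_congr rfl fun z _ => ?_
      rw [Finset.sum_sub_distrib]
      congr 1
      · rw [Finset.sum_eq_single (⟨q z, hSq z⟩ : S)]
        · rw [if_pos rfl]
        · intro l _ hl
          rw [if_neg (fun h => hl (Subtype.ext h.symm)), zero_smul]
        · intro h; exact absurd (mem_univ _) h
      · rw [Finset.sum_eq_single (⟨p z, hSp z⟩ : S)]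
        · rw [if_pos rfl]
        · intro l _ hl
          rw [if_neg (fun h => hl (Subtype.ext h.symm)), zero_smul]
        · intro h; exact absurd (mem_univ _) h
    rw [h2, ← hg, Fintype.sum_prod_type, Fintype.sum_prod_type]
    refine Finset.sum_congr rfl fun b _ => ?_
    simp only [Finset.smul_sum]
    rw [Finset.sum_comm]
    refine Finset.sum_congr rfl fun j _ => ?_
    simp only [hu, hv, Lc_prime _ _ _ (hp (b, j)).1, Lc_prime _ _ _ (hp (b, j)).2, Finset.sum_smul,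
      smul_sub]
    rw [← Finset.sum_sub_distrib]
    refine Finset.sum_congr rfl fun i _ => ?_
    simp only [Algebra.smul_def, map_mul]
    have e1 : ∀ t : algebraicClosure ℚ C, algebraMap (algebraicClosure ℚ C) C t = (t : C) :=
      fun t => rfl
    simp only [e1]
    ring
  have h3 := hli G h1
  rintro ⟨b, i₀⟩
  have h4 : ∀ j, ∑ i, g (b, i) * φ (c (q (b, j)) i) = 0 := by
    intro j
    have h5 := h3 ⟨q (b, j), hSq (b, j)⟩
    simp only [hG] at h5
    rw [Finset.sum_eq_single (b, j)] at h5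
    · rw [if_pos rfl, if_neg (hpq _ _), sub_zero] at h5
      exact h5
    · intro z _ hz
      rw [if_neg (fun h => hz (hinj h)), if_neg (hpq _ _), sub_zero]
    · intro h; exact absurd (mem_univ _) h
  have h5 : ∀ w : Fin m → F, w ∈ Submodule.span F (Set.range fun i => c (q (b, i))) →
      ∑ i, g (b, i) * φ (w i) = 0 := by
    intro w hw
    induction hw using Submodule.span_induction with
    | mem w h =>
      obtain ⟨j, rfl⟩ := h
      exact h4 j
    | zero => simp
    | add w w' _ _ h h' =>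
      simp only [Pi.add_apply, map_add, mul_add, Finset.sum_add_distrib, h, h', add_zero]
    | smul t w _ h =>
      simp only [Pi.smul_apply, smul_eq_mul, map_mul]
      have h6 : ∀ i, g (b, i) * (φ t * φ (w i)) = φ t * (g (b, i) * φ (w i)) := fun i => by ring
      simp only [h6, ← Finset.mul_sum, h, mul_zero]
  have h6 := h5 (Pi.single i₀ 1) (by rw [hspan b]; exact Submodule.mem_top)
  rw [Finset.sum_eq_single i₀] at h6
  · simpa using h6
  · intro i _ hi
    rw [Pi.single_eq_of_ne hi, map_zero, mul_zero]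
  · intro h; exact absurd (mem_univ _) h

end

section

variable {m : ℕ} {F : Type} [Field F]

open Classical in
/-- **One variable.** -/
theorem density_one (c : ℕ → Fin m → F)
    (hc : ∀ U : Submodule F (Fin m → F), U ≠ ⊤ → Div {p | p.Prime ∧ c p ∉ U}) (n D : ℕ)
    (ε : ℝ) (hε : 0 < ε) : ∃ x₀ : ℕ, ∀ x ≥ x₀,
    ∀ (C : Type) [Field C] [CharZero C] [IsAlgClosed C] (𝓢 : LogSys C)
    (φ : F →+* algebraicClosure ℚ C)
    (W : Submodule (algebraicClosure ℚ C) C), Module.Finite (algebraicClosure ℚ C) W →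
    Module.finrank (algebraicClosure ℚ C) W ≤ n → ∀ s : Fin m → C,
      (((Ioc 0 x).filter fun a : ℕ =>
        ¬ FreeOver W D (fun i => Lc 𝓢.lg φ c a i + s i)).card : ℝ) ≤ ε * x := by
  classical
  obtain ⟨r, hr⟩ := cubeV n m D (m * (m - 1))
  obtain ⟨x₀, hx₀⟩ := cube c hc m (by simp) (r + 1) ε hε 0
  refine ⟨x₀, fun x hx C _ _ _ 𝓢 φ W hWf hWn s => ?_⟩
  by_contra hcon
  push Not at hcon
  obtain ⟨a, p, q, ha, h1, h2, h3, h3', h4, h5⟩ := hx₀ x hx _ (Finset.filter_subset _ _) hcon.le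
  have hac : IsAlgClosed (algebraicClosure ℚ C) := (algebraicClosure.isAlgClosure ℚ C).isAlgClosed
  -- the bad block
  obtain ⟨b₁, hb₁⟩ : ∃ b₁ : Fin (r + 1), ∀ b j, b ≠ b₁ → p (b, j) ≠ 𝓢.q ∧ q (b, j) ≠ 𝓢.q := by
    by_cases h : ∃ z, q z = 𝓢.q
    · obtain ⟨z, h⟩ := h
      exact ⟨z.1, fun b j hb => ⟨fun h' => h2 _ z (h'.trans h.symm),
        fun h' => hb (congrArg Prod.fst (h3 (h'.trans h.symm)))⟩⟩
    · push Not at h
      by_cases h' : ∃ z, p z = 𝓢.q
      · obtain ⟨z, h'⟩ := h'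
        exact ⟨z.1, fun b j hb => ⟨fun h'' => hb (h3' _ z (h''.trans h'.symm)), h _⟩⟩
      · push Not at h'
        exact ⟨0, fun b j _ => ⟨h' _, h _⟩⟩
  let f : Fin r ↪o Fin (r + 1) := b₁.succAboveOrderEmb
  have hf : ∀ b, f b ≠ b₁ := fun b => b₁.succAbove_ne b
  set Lp : ℕ → Fin m → C := fun a i => Lc 𝓢.lg φ c a i with hLp
  set w : Fin (r + 1) → Fin m → C := fun b i => ∑ j, (Lp (q (b, j)) i - Lp (p (b, j)) i) with hw
  set v₀ : Fin m → C := fun i => Lp a i + ∑ b, ∑ j, Lp (p (b, j)) i + s i with hv₀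
  have hLmem : ∀ l : ℕ, l.Prime → ∀ i, Lp l i ∈ 𝓢.V₀ := by
    intro l hl i
    rw [hLp]
    simp only
    rw [Lc_prime _ _ _ hl]
    have h6 : (φ (c l i) : C) * 𝓢.lg l = φ (c l i) • 𝓢.lg l := by
      rw [Algebra.smul_def]; rfl
    rw [h6]
    exact Submodule.smul_mem _ _ (𝓢.lg_mem _ (by exact_mod_cast hl.ne_zero) (isAlgebraic_natCast _))
  have hli : LinearIndependent (algebraicClosure ℚ C) (fun z : Fin r × Fin m => w (f z.1) z.2) :=
    indep_w 𝓢 φ c (fun z => p (f z.1, z.2)) (fun z => q (f z.1, z.2))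
      (fun z => ⟨(h1 _).1, (h1 _).2.1⟩) (fun z => hb₁ _ _ (hf _)) (fun z z' => h2 _ _)
      (fun z z' h => by
        have h6 := h3 h
        simp only [Prod.mk.injEq] at h6
        exact Prod.ext (f.injective h6.1) h6.2) (fun b => h4 (f b))
  have hwide := wideAll_of_hyp 𝓢.hyp (M := Fin m) (fun b i => w (f b) i)
    (fun b i => Submodule.sum_mem _ fun j _ => Submodule.sub_mem _ (hLmem _ (h1 _).2.1 i)
      (hLmem _ (h1 _).1 i)) hli
  rw [Fintype.card_fin] at hwide
  obtain ⟨S, hS⟩ := hr (algebraicClosure ℚ C) C W hWf hWn v₀ (fun b i => w (f b) i) hwide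
  have h6 := (Finset.mem_filter.1 (h5 (S.map f.toEmbedding))).2
  apply h6
  have h7 : (fun i => Lc 𝓢.lg φ c (a * ∏ b, (if b ∈ S.map f.toEmbedding then ∏ j, q (b, j)
      else ∏ j, p (b, j))) i + s i) = fun i => v₀ i + ∑ b ∈ S, w (f b) i := by
    funext i
    have hp0 : ∀ z, p z ≠ 0 := fun z => (h1 z).1.ne_zero
    have hq0 : ∀ z, q z ≠ 0 := fun z => (h1 z).2.1.ne_zero
    have h8 : ∀ b, (if b ∈ S.map f.toEmbedding then ∏ j, q (b, j) else ∏ j, p (b, j)) ≠ 0 := by
      intro b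
      split_ifs
      · exact Finset.prod_ne_zero_iff.2 fun j _ => hq0 _
      · exact Finset.prod_ne_zero_iff.2 fun j _ => hp0 _
    rw [Lc_mul _ _ _ ha.ne' (Finset.prod_ne_zero_iff.2 fun b _ => h8 b),
      Lc_prod _ _ _ _ _ (fun b _ => h8 b)]
    have h9 : ∀ b, Lc 𝓢.lg φ c (if b ∈ S.map f.toEmbedding then ∏ j, q (b, j)
        else ∏ j, p (b, j)) i = ∑ j, Lp (p (b, j)) i +
        (if b ∈ S.map f.toEmbedding then w b i else 0) := by
      intro b
      split_ifs with hb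
      · rw [Lc_prod _ _ _ _ _ (fun j _ => hq0 _)]
        simp only [hw, hLp, Finset.sum_sub_distrib]
        ring
      · rw [Lc_prod _ _ _ _ _ (fun j _ => hp0 _), add_zero]
    simp only [h9, Finset.sum_add_distrib, Finset.sum_ite_mem, Finset.univ_inter, Finset.sum_map]
    simp only [hv₀, hLp]
    have h10 : ∀ b, f.toEmbedding b = f b := fun b => rfl
    simp only [h10]
    ring
  rw [h7]
  exact hS

end

end Pool.Agent.H443.PP
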