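import Mathlib
import Pool.Agent.H443.PP.Dens
import Pool.Agent.H443.VF.CInst
import Pool.Graph.R_seed8.R350.GU
import Pool.Graph.R_seed8.R350.Inst

/-!
# Generic rows from the parts of an integer
-/

set_option autoImplicit false

namespace Pool.Agent.R350

open Module Finset Pool.Agent.W245 Pool.Agent.W245.PB Pool.Agent.TH681.QC

/-- **Matrices with a row of sums of three elements of arbitrary lists.** -/
theorem few_two_lists (k m v : ℕ) : ∃ δ : ℝ, 0 < δ ∧ ∃ K' : ℝ, 0 ≤ K' ∧ ∀ (K κ C : Type) [Field K]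
    [Field κ] [CharZero κ] [Field C]
    [Algebra K C] [Algebra κ C] [Algebra K κ] [IsScalarTower K κ C]
    (L : Submodule κ C), HypV v L → (1 : C) ∈ L → ∀ V : Submodule K C, Module.Finite K V →
    finrank K V ≤ m → ∀ z : Fin k → C, (∀ a, z a ∈ L) →
    ∀ (N : ℕ) (w : Fin k → Fin (nS 0) → Fin N → C), (∀ a j i, w a j i ∈ L) →
    (∀ a, ∀ (R : ℕ) (p : Fin (nS 0) → Fin R → Fin N),
      Function.Injective (fun q : Fin (nS 0) × Fin R => p q.1 q.2) →
      LinearIndependent κ (fun q : Fin (nS 0) × Fin R => w a q.1 (p q.1 q.2))) →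
    ∀ B : Finset (Fin k → Fin (nS 0) → Fin N),
    (∀ f ∈ B, ¬ Good2f V L (fun a => z a + ∑ j, w a j (f a j))) →
    (B.card : ℝ) ≤ K' * (N : ℝ) ^ (k * nS 0) * (N : ℝ) ^ (-δ) := by
  classical
  obtain ⟨M, hM⟩ : ∃ M, M = m + k + 1 := ⟨_, rfl⟩
  obtain ⟨δ, hδ, K', hK', h⟩ := chain_few 0 (M * (M + (v + m)) * M + M) (v + m) k
  refine ⟨δ, hδ, K', hK', fun K κ C _ _ _ _ _ _ _ _ L hL h1L V hVf hVm z hz N w hw hli B
    hbad => ?_⟩
  have hspan := spanK_finite (κ := κ) V
  have hyp := hL.sup (Submodule.span κ (V : Set C)) ((finrank_spanK_le V).trans hVm)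
  have hfinH : ∀ (j : Fin k) (y : Fin k → C), Module.Finite κ (hullSp κ (stage V y j)) := by
    intro j y
    have := stage_finite V y j
    exact hullSp_finite _
  have hrankH : ∀ (j : Fin k) (y : Fin k → C), finrank κ (hullSp κ (stage V y j)) ≤ M := by
    intro j y
    have := stage_finite V y j
    have h1 := finrank_hullSp_le (κ := κ) (stage V y j)
    have h2 := finrank_stage_le V y j
    omega
  refine h κ C (L ⊔ Submodule.span κ (V : Set C)) hyp (Submodule.mem_sup_left h1L)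
    (fun j y => hullSp κ (stage V y j))
    (fun j y => suppSp (v + m) (L ⊔ Submodule.span κ (V : Set C)) (hullSp κ (stage V y j)) ⊔
      hullSp κ (stage V y j)) ?_ ?_ (fun j y => one_mem_hullSp _) z
    (fun a => Submodule.mem_sup_left (hz a)) N w
    (fun a j i => Submodule.mem_sup_left (hw a j i)) hli B ?_
  · refine ⟨fun j y y' hy => ?_, hfinH, fun j y => (hrankH j y).trans (by omega)⟩
    rw [stage_congr V (f := y) (g := y') j (fun i hi => hy i hi)]
  · refine ⟨fun j y y' hy => ?_, fun j y => ?_, fun j y => ?_⟩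
    · rw [stage_congr V (f := y) (g := y') j (fun i hi => hy i hi)]
    · have h1 := hfinH j y
      have h2 := (suppSp_spec hyp (hullSp κ (stage V y j))).1
      infer_instance
    · have h1 := hfinH j y
      have h2 := (suppSp_spec hyp (hullSp κ (stage V y j))).1
      have h3 := (suppSp_spec hyp (hullSp κ (stage V y j))).2.1
      have h4 := hrankH j y
      refine (Submodule.finrank_add_le_finrank_add_finrank _ _).trans ?_
      refine Nat.add_le_add (h3.trans ?_) h4
      gcongr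
  · intro f hfB
    by_contra hno
    push Not at hno
    apply hbad f hfB
    refine good2f_of V hyp _ (fun i => Submodule.mem_sup_left (L.add_mem (hz i)
      (Submodule.sum_mem _ fun j _ => hw _ _ _))) (fun j => (hno j).1) (fun j => ?_)
    have := hfinH j (fun a => z a + ∑ j, w a j (f a j))
    exact GD.not_exc (one_mem_hullSp _) (hno j).2

end Pool.Agent.R350

namespace Pool.Agent.H443.PP

open Finset

/-- **Cubes with prescribed sets of primes.** -/
theorem cubeT (r : ℕ) : ∀ (T : Fin r → Set ℕ), (∀ i, ∀ p ∈ T i, p.Prime) → (∀ i, Div (T i)) →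
    ∀ (δ : ℝ), 0 < δ → ∀ y : ℕ, ∃ x₀ : ℕ, ∀ x ≥ x₀, ∀ A : Finset ℕ, A ⊆ Ioc 0 x → δ * x ≤ A.card →
      ∃ (a : ℕ) (p q : Fin r → ℕ), 0 < a ∧ (∀ i, p i ∈ T i ∧ q i ∈ T i ∧ y < p i ∧ y < q i) ∧
        (∀ i j, p i ≠ q j) ∧ Function.Injective q ∧
        ∀ S : Finset (Fin r), a * ∏ i, (if i ∈ S then q i else p i) ∈ A := by
  classical
  induction r with
  | zero =>
    intro T _ _ δ hδ y
    refine ⟨1, fun x hx A hA hAc => ?_⟩
    have hxr : (0 : ℝ) < x := by exact_mod_cast hx
    have h1 : (0 : ℝ) < A.card := lt_of_lt_of_le (by positivity) hAc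
    obtain ⟨a, ha⟩ := Finset.card_pos.1 (by exact_mod_cast h1 : 0 < A.card)
    refine ⟨a, Fin.elim0, Fin.elim0, (Finset.mem_Ioc.1 (hA ha)).1, fun i => i.elim0,
      fun i => i.elim0, fun i => i.elim0, fun S => ?_⟩
    simpa using ha
  | succ r ih =>
    intro T hTp hT δ hδ y
    obtain ⟨P, δ', x₁, hδ', hP, hstep⟩ := one_step (T 0) (hTp 0) (hT 0) δ hδ y
    obtain ⟨x₂, hx₂⟩ := ih (fun i => T i.succ) (fun i => hTp _) (fun i => hT _) δ' hδ'
      (max y (P.sup id))
    refine ⟨max x₁ x₂, fun x hx A hA hAc => ?_⟩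
    obtain ⟨p₀, hp₀, q₀, hq₀, hpq₀, hcard⟩ := hstep x ((le_max_left _ _).trans hx) A hA hAc
    obtain ⟨a, p, q, ha, h1, h2, h3, h5⟩ := hx₂ x ((le_max_right _ _).trans hx) _
      (Finset.filter_subset _ _) hcard
    have hsup : ∀ u ∈ P, u ≤ max y (P.sup id) := fun u hu =>
      (Finset.le_sup (f := id) hu).trans (le_max_right _ _)
    have hyy' : y ≤ max y (P.sup id) := le_max_left _ _
    refine ⟨a, Fin.cons p₀ p, Fin.cons q₀ q, ha, ?_, ?_, ?_, ?_⟩
    · intro i
      refine Fin.cases ?_ (fun i => ?_) i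
      · simp only [Fin.cons_zero]
        exact ⟨(hP p₀ hp₀).1, (hP q₀ hq₀).1, (hP p₀ hp₀).2, (hP q₀ hq₀).2⟩
      · simp only [Fin.cons_succ]
        obtain ⟨k1, k2, k3, k4⟩ := h1 i
        exact ⟨k1, k2, lt_of_le_of_lt hyy' k3, lt_of_le_of_lt hyy' k4⟩
    · intro i j
      refine Fin.cases ?_ (fun i => ?_) i
      · refine Fin.cases ?_ (fun j => ?_) j
        · simpa using hpq₀
        · simp only [Fin.cons_zero, Fin.cons_succ]
          exact (lt_of_le_of_lt (hsup p₀ hp₀) (h1 j).2.2.2).ne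
      · refine Fin.cases ?_ (fun j => ?_) j
        · simp only [Fin.cons_zero, Fin.cons_succ]
          exact (lt_of_le_of_lt (hsup q₀ hq₀) (h1 i).2.2.1).ne'
        · simp only [Fin.cons_succ]
          exact h2 i j
    · rw [Fin.cons_injective_iff]
      refine ⟨?_, h3⟩
      rintro ⟨i, hi⟩
      exact (lt_of_le_of_lt (hsup q₀ hq₀) (h1 i).2.2.2).ne' hi
    · intro S
      have h6 := h5 (univ.filter (fun b : Fin r => b.succ ∈ S))
      rw [Finset.mem_filter] at h6
      have h8 : ∏ b : Fin (r + 1), (if b ∈ S then (Fin.cons q₀ q : Fin (r + 1) → ℕ) b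
          else (Fin.cons p₀ p : Fin (r + 1) → ℕ) b) =
          (if (0 : Fin (r + 1)) ∈ S then q₀ else p₀) *
          ∏ b : Fin r, (if b ∈ univ.filter (fun b : Fin r => b.succ ∈ S) then q b else p b) := by
        rw [Fin.prod_univ_succ]
        simp only [Fin.cons_zero, Fin.cons_succ, Finset.mem_filter, Finset.mem_univ, true_and]
      rw [h8]
      by_cases h0 : (0 : Fin (r + 1)) ∈ S
      · rw [if_pos h0]
        have h9 := h6.2.2
        rw [mul_left_comm] at h9
        exact h9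
      · rw [if_neg h0]
        have h9 := h6.2.1
        rw [mul_left_comm] at h9
        exact h9

/-- the indicators of the sets of primes -/
noncomputable def ind {m : ℕ} (P : Fin m → Set ℕ) (p : ℕ) (i : Fin m) : algebraicClosure ℚ ℂ := by
  classical
  exact if p ∈ P i then 1 else 0

/-- the logarithms of the parts -/
noncomputable def lp {m : ℕ} (P : Fin m → Set ℕ) (n : ℕ) (i : Fin m) : ℂ :=
  Lc (fun z => Complex.log z) (RingHom.id _) (ind P) n i

theorem lp_prime {m : ℕ} (P : Fin m → Set ℕ) {p : ℕ} (hp : p.Prime) (i : Fin m) :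
    lp P p i = (ind P p i : ℂ) * (Real.log p : ℂ) := by
  unfold lp
  rw [Lc_prime _ _ _ hp]
  show (ind P p i : ℂ) * Complex.log (p : ℂ) = _
  rw [← Complex.ofReal_natCast p, ← Complex.ofReal_log (Nat.cast_nonneg p)]

theorem lp_mem {m : ℕ} (P : Fin m → Set ℕ) (n : ℕ) (i : Fin m) :
    lp P n i ∈ Pool.Agent.H301R2.SSE.Lt := by
  unfold lp Lc
  refine Submodule.sum_mem _ fun p hp => ?_
  have hp0 : (p : ℕ) ≠ 0 := (Nat.prime_of_mem_primeFactors hp).ne_zero
  have h1 : ((n.factorization p : ℕ) : ℂ) * ((RingHom.id (algebraicClosure ℚ ℂ)) (ind P p i) : ℂ) *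
      Complex.log (p : ℂ) = (((n.factorization p : ℕ) : algebraicClosure ℚ ℂ) * ind P p i) •
        Complex.log (p : ℂ) := by
    rw [Algebra.smul_def, map_mul, map_natCast]
    rfl
  change ((n.factorization p : ℕ) : ℂ) * ((RingHom.id (algebraicClosure ℚ ℂ)) (ind P p i) : ℂ) *
      Complex.log (p : ℂ) ∈ _
  rw [h1]
  refine Submodule.smul_mem _ _ (Pool.Agent.H301R2.SSE.Lt_log ?_)
  rw [Complex.exp_log (by exact_mod_cast hp0)]
  exact isAlgebraic_natCast p

theorem indep_pq {B : Type} [Fintype B] (p q : B → ℕ) (hp : ∀ z, (p z).Prime ∧ (q z).Prime)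
    (hpq : ∀ z z', p z ≠ q z') (hinj : Function.Injective q) :
    LinearIndependent (algebraicClosure ℚ ℂ) (fun z : B =>
      (Real.log (q z) : ℂ) - (Real.log (p z) : ℂ)) := by
  classical
  have h := indep_w (m := 1) Pool.Agent.H443.VF.cSys (RingHom.id (algebraicClosure ℚ ℂ)) (fun _ _ => 1)
    (B := B) (fun z => p z.1) (fun z => q z.1) (fun z => hp z.1)
    (fun z => ⟨(hp z.1).1.one_lt.ne', (hp z.1).2.one_lt.ne'⟩) (fun z z' => hpq _ _)
    (fun z z' h => Prod.ext (hinj h) (Subsingleton.elim _ _)) (fun b => by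
      rw [eq_top_iff]
      intro v _
      have h1 : v = v 0 • (fun _ : Fin 1 => (1 : algebraicClosure ℚ ℂ)) := by
        funext j
        rw [Subsingleton.elim j 0]
        simp
      rw [h1]
      exact Submodule.smul_mem _ _ (Submodule.subset_span ⟨0, rfl⟩))
  have h2 := h.comp (fun b : B => (b, (0 : Fin 1))) (fun b b' h => congrArg Prod.fst h)
  refine (linearIndependent_equiv' (Equiv.refl B) ?_).1 h2
  funext b
  simp only [Function.comp_apply, Equiv.refl_apply, Fin.sum_univ_one]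
  rw [Lc_prime _ _ _ (hp b).1, Lc_prime _ _ _ (hp b).2]
  have h3 : ∀ l : ℕ, Pool.Agent.H443.VF.cSys.lg (l : ℂ) = (Real.log l : ℂ) := by
    intro l
    show Complex.log (l : ℂ) = _
    rw [← Complex.ofReal_natCast l, ← Complex.ofReal_log (Nat.cast_nonneg l)]
  rw [h3, h3]
  simp

open Pool.Agent.R350 in
open Classical in
/-- **One integer.** -/
theorem row_one (m d : ℕ) (P : Fin m → Set ℕ) (hPp : ∀ i, ∀ p ∈ P i, p.Prime)
    (hP : ∀ i, Div (P i)) (hdis : ∀ i j, i ≠ j → Disjoint (P i) (P j)) (ε : ℝ) (hε : 0 < ε) :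
    ∃ x₀ : ℕ, ∀ x ≥ x₀, ∀ V : Submodule ℚ ℂ, Module.Finite ℚ V → Module.finrank ℚ V ≤ d →
      (((Ioc 0 x).filter fun a : ℕ => ¬ Good2f V Pool.Agent.H301R2.SSE.Lt (lp P a)).card : ℝ) ≤
        ε * x := by
  classical
  obtain ⟨δ, hδ, K', hK', hfew⟩ := few_two_lists m d 0
  obtain ⟨N, hN1, hN⟩ : ∃ N : ℕ, 1 ≤ N ∧ K' < (N : ℝ) ^ δ := by
    have h1 := (tendsto_rpow_atTop hδ).comp tendsto_natCast_atTop_atTop
    obtain ⟨N, hN⟩ := ((Filter.tendsto_atTop.1 h1 (K' + 1)).and (Filter.eventually_ge_atTop 1)).exists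
    exact ⟨N, hN.2, by have := hN.1; simp only [Function.comp_apply] at this; linarith⟩
  let J : Type := Fin m × Fin (nS 0) × Fin N
  set r := Fintype.card J with hr
  let e : Fin r ≃ J := (Fintype.equivFin J).symm
  obtain ⟨x₀, hx₀⟩ := cubeT r (fun i => P (e i).1) (fun i => hPp _) (fun i => hP _) ε hε 0
  refine ⟨x₀, fun x hx V hVf hVd => ?_⟩
  by_contra hcon
  push Not at hcon
  obtain ⟨a, p, q, ha, h1, h2, h3, h5⟩ := hx₀ x hx _ (Finset.filter_subset _ _) hcon.le
  have hpp : ∀ i, (p i).Prime ∧ (q i).Prime := fun i => ⟨hPp _ _ (h1 i).1, hPp _ _ (h1 i).2.1⟩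
  -- values at the primes
  have hval : ∀ (b : Fin m) (l : ℕ), l ∈ P b → ∀ i, lp P l i = if b = i then (Real.log l : ℂ) else 0 := by
    intro b l hl i
    rw [lp_prime P (hPp b l hl)]
    unfold ind
    by_cases hbi : b = i
    · subst hbi
      rw [if_pos hl, if_pos rfl]
      simp
    · rw [if_neg hbi, if_neg (fun hl' => Set.disjoint_left.1 (hdis b i hbi) hl hl')]
      simp
  set w : Fin m → Fin (nS 0) → Fin N → ℂ := fun b j t =>
    (Real.log (q (e.symm (b, j, t))) : ℂ) - (Real.log (p (e.symm (b, j, t))) : ℂ) with hw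
  set z : Fin m → ℂ := fun i => lp P a i + ∑ ι, lp P (p ι) i with hz
  have hwL : ∀ b j t, w b j t ∈ Pool.Agent.H301R2.SSE.Lt := by
    intro b j t
    have hlog : ∀ l : ℕ, l.Prime → (Real.log l : ℂ) ∈ Pool.Agent.H301R2.SSE.Lt := by
      intro l hl
      apply Pool.Agent.H301R2.SSE.Lt_log
      rw [← Complex.ofReal_exp, Real.exp_log (by exact_mod_cast hl.pos), Complex.ofReal_natCast]
      exact isAlgebraic_natCast l
    exact Submodule.sub_mem _ (hlog _ (hpp _).2) (hlog _ (hpp _).1)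
  have hzL : ∀ i, z i ∈ Pool.Agent.H301R2.SSE.Lt := fun i =>
    Submodule.add_mem _ (lp_mem P a i) (Submodule.sum_mem _ fun ι _ => lp_mem P _ i)
  have hli : ∀ b, ∀ (R : ℕ) (p' : Fin (nS 0) → Fin R → Fin N),
      Function.Injective (fun q : Fin (nS 0) × Fin R => p' q.1 q.2) →
      LinearIndependent (algebraicClosure ℚ ℂ)
        (fun q : Fin (nS 0) × Fin R => w b q.1 (p' q.1 q.2)) := by
    intro b R p' hp'
    refine indep_pq (fun z : Fin (nS 0) × Fin R => p (e.symm (b, z.1, p' z.1 z.2)))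
      (fun z : Fin (nS 0) × Fin R => q (e.symm (b, z.1, p' z.1 z.2))) (fun z => hpp _)
      (fun z z' => h2 _ _) (fun z z' h => ?_)
    have h6 := e.symm.injective (h3 h)
    exact hp' (congrArg (fun u : Fin m × Fin (nS 0) × Fin N => u.2.2) h6)
  have hcount := hfew ℚ (algebraicClosure ℚ ℂ) ℂ Pool.Agent.H301R2.SSE.Lt
    setup_complex.hyp setup_complex.one V hVf hVd z hzL N w hwL hli Finset.univ (fun f _ => by
      set S : Finset (Fin r) := univ.filter (fun ι => f (e ι).1 (e ι).2.1 = (e ι).2.2) with hS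
      have h6 := (Finset.mem_filter.1 (h5 S)).2
      have h7 : lp P (a * ∏ ι, (if ι ∈ S then q ι else p ι)) = fun i => z i + ∑ j, w i j (f i j) := by
        funext i
        have hp0 : ∀ ι, p ι ≠ 0 := fun ι => (hpp ι).1.ne_zero
        have hq0 : ∀ ι, q ι ≠ 0 := fun ι => (hpp ι).2.ne_zero
        have h8 : ∀ ι, (if ι ∈ S then q ι else p ι) ≠ 0 := by
          intro ι
          split_ifs
          · exact hq0 _
          · exact hp0 _
        unfold lp
        rw [Lc_mul _ _ _ ha.ne' (Finset.prod_ne_zero_iff.2 fun ι _ => h8 ι),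
          Lc_prod _ _ _ _ _ (fun ι _ => h8 ι)]
        change lp P a i + ∑ ι, lp P (if ι ∈ S then q ι else p ι) i = _
        have h9 : ∀ ι, lp P (if ι ∈ S then q ι else p ι) i = lp P (p ι) i +
            (if f (e ι).1 (e ι).2.1 = (e ι).2.2 then
              (if (e ι).1 = i then w (e ι).1 (e ι).2.1 (e ι).2.2 else 0) else 0) := by
          intro ι
          have hmem : ι ∈ S ↔ f (e ι).1 (e ι).2.1 = (e ι).2.2 := by
            rw [hS, Finset.mem_filter]
            simp
          by_cases hι : f (e ι).1 (e ι).2.1 = (e ι).2.2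
          · rw [if_pos (hmem.2 hι), if_pos hι, hval _ _ (h1 ι).2.1, hval _ _ (h1 ι).1]
            by_cases hi : (e ι).1 = i
            · rw [if_pos hi, if_pos hi, if_pos hi]
              simp only [hw, Prod.mk.eta, Equiv.symm_apply_apply]
              ring
            · rw [if_neg hi, if_neg hi, if_neg hi, add_zero]
          · rw [if_neg (fun h => hι (hmem.1 h)), if_neg hι, add_zero]
        simp only [h9, Finset.sum_add_distrib]
        rw [← e.symm.sum_comp (fun ι => (if f (e ι).1 (e ι).2.1 = (e ι).2.2 then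
              (if (e ι).1 = i then w (e ι).1 (e ι).2.1 (e ι).2.2 else 0) else 0 : ℂ))]
        simp only [Equiv.apply_symm_apply]
        rw [Fintype.sum_prod_type, Finset.sum_eq_single i]
        · rw [Fintype.sum_prod_type]
          simp only [if_true, Finset.sum_ite_eq, Finset.mem_univ]
          rw [hz]
          simp only
          ring
        · intro b _ hb
          refine Finset.sum_eq_zero fun x _ => ?_
          rw [if_neg hb, ite_self]
        · intro h; exact absurd (mem_univ _) h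
      rw [h7] at h6
      exact h6)
  rw [Finset.card_univ, Fintype.card_fun, Fintype.card_fun, Fintype.card_fin, Fintype.card_fin,
    Fintype.card_fin] at hcount
  have hN0 : (0 : ℝ) < N := by exact_mod_cast hN1
  have h8 : (((N ^ nS 0) ^ m : ℕ) : ℝ) = (N : ℝ) ^ (m * nS 0) := by
    push_cast
    rw [← pow_mul, mul_comm]
  rw [h8, mul_comm K', mul_assoc] at hcount
  have h9 : (0 : ℝ) < (N : ℝ) ^ (m * nS 0) := by positivity
  have h10 : 1 ≤ K' * (N : ℝ) ^ (-δ) := by
    by_contra hlt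
    push Not at hlt
    nlinarith
  rw [Real.rpow_neg hN0.le, ← div_eq_mul_inv, le_div_iff₀ (by positivity), one_mul] at h10
  linarith

end Pool.Agent.H443.PP
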