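import Mathlib
import Pool.Agent.H443.PP.Dens

/-!
# Tuples
-/

set_option autoImplicit false

namespace Pool.Agent.H443.PP

open Finset
open Pool.Agent.H443.VF
open Pool.Agent.H297R2 (Ex)

/-- reindexing -/
def prEquiv (k m : ℕ) : Fin m ⊕ (Fin k × Fin m) ≃ Fin (k + 1) × Fin m where
  toFun s := match s with
    | Sum.inl c => (0, c)
    | Sum.inr z => (z.1.succ, z.2)
  invFun z := Fin.cases (motive := fun _ => Fin m ⊕ (Fin k × Fin m))
        (Sum.inl z.2) (fun j => Sum.inr (j, z.2)) z.1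
  left_inv s := by
    rcases s with c | z <;> simp
  right_inv z := by
    rcases z with ⟨j, c⟩
    refine Fin.cases ?_ (fun j => ?_) j
    · simp
    · simp

open Classical in
/-- **Tuples.** -/
theorem tuples {m : ℕ} {F : Type} [Field F] (c : ℕ → Fin m → F)
    (hc : ∀ U : Submodule F (Fin m → F), U ≠ ⊤ → Div {p | p.Prime ∧ c p ∉ U}) (D : ℕ) (k : ℕ) :
    ∀ (n : ℕ) (ε : ℝ), 0 < ε → ∃ N₀ : ℕ, ∀ N : Fin k → ℕ, (∀ j, N₀ ≤ N j) →
    ∀ (C : Type) [Field C] [CharZero C] [IsAlgClosed C] (𝓢 : LogSys C)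
    (φ : F →+* algebraicClosure ℚ C)
    (W : Submodule (algebraicClosure ℚ C) C), Module.Finite (algebraicClosure ℚ C) W →
    Module.finrank (algebraicClosure ℚ C) W ≤ n → ∀ s : Fin k × Fin m → C,
      (((Fintype.piFinset fun j => Ioc 0 (N j)).filter fun x : Fin k → ℕ =>
        ¬ FreeOver W D (fun z : Fin k × Fin m => Lc 𝓢.lg φ c (x z.1) z.2 + s z)).card : ℝ) ≤
      ε * ∏ j, (N j : ℝ) := by
  induction k with
  | zero =>
    intro n ε hε
    refine ⟨0, fun N _ C _ _ _ 𝓢 φ W _ _ s => ?_⟩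
    rw [Finset.filter_false_of_mem]
    · simp [hε.le]
    · intro x _
      push Not
      exact FreeOver.of_isEmpty W D _
  | succ k ih =>
    intro n ε hε
    obtain ⟨N₁, hN₁⟩ := density_one c hc n D (ε / 2) (by linarith)
    obtain ⟨N₂, hN₂⟩ := ih (Fintype.card (Ex (Fin m) D) * n) (ε / 2) (by linarith)
    refine ⟨max N₁ N₂, fun N hN C _ _ _ 𝓢 φ W hWf hWn s => ?_⟩
    set bad : (Fin (k + 1) → ℕ) → Prop := fun x =>
        ¬ FreeOver W D (fun z : Fin (k + 1) × Fin m => Lc 𝓢.lg φ c (x z.1) z.2 + s z) with hbad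
    set B := (Fintype.piFinset fun j => Ioc 0 (N j)).filter bad with hB
    set L₀ : ℕ → Fin m → C := fun a i => Lc 𝓢.lg φ c a i + s (0, i) with hL₀
    set A := (Ioc 0 (N 0)).filter (fun a => ¬ FreeOver W D (L₀ a)) with hA
    have hcd : ∀ j : Fin (k + 1), ((Ioc 0 (N j)).card : ℝ) = N j := fun j => by
      rw [Nat.card_Ioc, Nat.sub_zero]
    have hAcard : (A.card : ℝ) ≤ ε / 2 * (Ioc 0 (N 0)).card := by
      rw [hcd]
      exact hN₁ (N 0) ((le_max_left _ _).trans (hN 0)) C 𝓢 φ W hWf hWn (fun i => s (0, i))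
    set Z : ℝ := ∏ j : Fin k, (N j.succ : ℝ) with hZ
    have hZ0 : 0 ≤ Z := Finset.prod_nonneg fun _ _ => Nat.cast_nonneg _
    have hfib : B.card = ∑ a ∈ Ioc 0 (N 0), (B.filter (fun x => x 0 = a)).card := by
      apply Finset.card_eq_sum_card_fiberwise
      intro x hx
      have hx' : x ∈ B := hx
      rw [hB, Finset.mem_filter, Fintype.mem_piFinset] at hx'
      exact hx'.1 0
    set Ps : Finset (Fin k → ℕ) := Fintype.piFinset fun j : Fin k => Ioc 0 (N j.succ) with hPs
    have hPc : (Ps.card : ℝ) = Z := by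
      rw [hPs, Fintype.card_piFinset, hZ]
      push_cast
      exact Finset.prod_congr rfl fun j _ => hcd j.succ
    have hle : ∀ a, (B.filter (fun x => x 0 = a)).card ≤
        (Ps.filter (fun y => bad (Fin.cons a y))).card := by
      intro a
      apply Finset.card_le_card_of_injOn (fun x => Fin.tail x)
      · intro x hx
        have hx' : x ∈ B.filter (fun x => x 0 = a) := hx
        rw [Finset.mem_filter, hB, Finset.mem_filter, Fintype.mem_piFinset] at hx'
        have hcons : (Fin.cons a (Fin.tail x) : Fin (k + 1) → ℕ) = x := by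
          rw [← hx'.2]; exact Fin.cons_self_tail x
        show Fin.tail x ∈ _
        rw [Finset.mem_coe, Finset.mem_filter, hPs, Fintype.mem_piFinset]
        refine ⟨fun j => hx'.1.1 j.succ, ?_⟩
        rw [hcons]
        exact hx'.1.2
      · intro x hx y hy h
        have hx' : x ∈ B.filter (fun x => x 0 = a) := hx
        have hy' : y ∈ B.filter (fun x => x 0 = a) := hy
        rw [Finset.mem_filter] at hx' hy'
        rw [← Fin.cons_self_tail x, ← Fin.cons_self_tail y, hx'.2, hy'.2]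
        have : Fin.tail x = Fin.tail y := h
        rw [this]
    have hgood : ∀ a ∈ Ioc 0 (N 0), a ∉ A →
        ((Ps.filter (fun y => bad (Fin.cons a y))).card : ℝ) ≤ ε / 2 * Z := by
      intro a ha haA
      have hta : FreeOver W D (L₀ a) := by
        by_contra hcon
        apply haA
        rw [hA, Finset.mem_filter]
        exact ⟨ha, hcon⟩
      have hf := mulExt_finite W D (L₀ a)
      have hfr : Module.finrank (algebraicClosure ℚ C) (mulExt W D (L₀ a)) ≤
          Fintype.card (Ex (Fin m) D) * n :=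
        (finrank_mulExt_le W D (L₀ a)).trans (Nat.mul_le_mul_left _ hWn)
      have h1 := hN₂ (fun j => N j.succ) (fun j => (le_max_right _ _).trans (hN j.succ)) C 𝓢 φ
        (mulExt W D (L₀ a)) hf hfr (fun z => s (z.1.succ, z.2))
      refine le_trans (Nat.cast_le.2 (Finset.card_le_card ?_)) h1
      intro y hy
      rw [Finset.mem_filter] at hy ⊢
      refine ⟨hy.1, ?_⟩
      intro hno
      apply hy.2
      apply FreeOver.of_equiv (prEquiv k m)
      have h2 := FreeOver.sum hta hno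
      have h3 : (fun z : Fin (k + 1) × Fin m =>
          Lc 𝓢.lg φ c ((Fin.cons a y : Fin (k + 1) → ℕ) z.1) z.2 + s z) ∘ (prEquiv k m) =
          Sum.elim (L₀ a) (fun z : Fin k × Fin m =>
            Lc 𝓢.lg φ c (y z.1) z.2 + s (z.1.succ, z.2)) := by
        funext u
        rcases u with c | ⟨j, c⟩
        · rfl
        · rfl
      rw [h3]
      exact h2
    have htriv : ∀ a, ((Ps.filter (fun y => bad (Fin.cons a y))).card : ℝ) ≤ Z := by
      intro a
      rw [← hPc]
      exact Nat.cast_le.2 (Finset.card_filter_le _ _)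
    have hAsub : A ⊆ Ioc 0 (N 0) := Finset.filter_subset _ _
    have h1 := Pool.Agent.H443.NF.sum_split (Ioc 0 (N 0)) A hAsub
      (fun a => ((B.filter (fun x => x 0 = a)).card : ℝ)) Z (ε / 2 * Z)
      (fun a _ => (Nat.cast_le.2 (hle a)).trans (htriv a))
      (fun a ha haA => (Nat.cast_le.2 (hle a)).trans (hgood a ha haA))
      (mul_nonneg (by linarith) hZ0) hZ0
    have h2 : (B.card : ℝ) = ∑ a ∈ Ioc 0 (N 0), ((B.filter (fun x => x 0 = a)).card : ℝ) := by
      rw [hfib, Nat.cast_sum]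
    have h3 : ∏ j : Fin (k + 1), (N j : ℝ) = (Ioc 0 (N 0)).card * Z := by
      rw [hcd]
      exact Fin.prod_univ_succ _
    rw [h3, h2]
    refine h1.trans ?_
    have h4 : (A.card : ℝ) * Z ≤ (ε / 2 * (Ioc 0 (N 0)).card) * Z :=
      mul_le_mul_of_nonneg_right hAcard hZ0
    calc (A.card : ℝ) * Z + (Ioc 0 (N 0)).card * (ε / 2 * Z)
        ≤ (ε / 2 * (Ioc 0 (N 0)).card) * Z + (Ioc 0 (N 0)).card * (ε / 2 * Z) :=
          add_le_add h4 le_rfl
      _ = ε * ((Ioc 0 (N 0)).card * Z) := by ring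

end Pool.Agent.H443.PP
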